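import Mathlib

/-!
# Piece SHORTP of project MW, without its imports: primes in almost all short intervals
-/

set_option autoImplicit false

open Finset Filter Polynomial

namespace Pool.Agent.Run7.h871.MW

/-- copy of `AllShortPolynomialSequences.rootCount` -/
noncomputable def rc (f : ℤ[X]) (n : ℤ) (p : ℕ) : ℕ :=
  ((range p).filter (fun r : ℕ => (p : ℤ) ∣ n + f.eval (r : ℤ))).card

/-- copy of `AllShortPolynomialSequences.density` -/
noncomputable def dens (f : ℤ[X]) (n : ℤ) (z : ℕ) : ℝ :=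
  ∏ p ∈ (Icc 1 z).filter Nat.Prime, (1 - (rc f n p : ℝ) / p) / (1 - 1 / (p : ℝ))

/-- copy of `AllShortPolynomialSequences.primeSum` -/
noncomputable def ps (f : ℤ[X]) (n : ℤ) (x : ℕ) : ℝ :=
  ∑ m ∈ (Icc 1 x).filter (fun m : ℕ => (n + f.eval (m : ℤ)).toNat.Prime),
    Real.log ((n + f.eval (m : ℤ) : ℤ) : ℝ)

theorem rc_X (n : ℤ) (p : ℕ) (hp : p.Prime) : rc X n p = 1 := by
  unfold rc
  rw [card_eq_one]
  have hp0 : (0 : ℤ) < p := by exact_mod_cast hp.pos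
  refine ⟨((-n) % p).toNat, ?_⟩
  have h0 : 0 ≤ (-n) % p := Int.emod_nonneg _ hp0.ne'
  have h1 : (-n) % p < p := Int.emod_lt_of_pos _ hp0
  ext r
  simp only [mem_filter, mem_range, mem_singleton, eval_X]
  constructor
  · rintro ⟨hr, hd⟩
    have h2 : (r : ℤ) ≡ -n [ZMOD p] := by
      have h3 : (p : ℤ) ∣ r - (-n) := by
        have : (r : ℤ) - (-n) = n + r := by ring
        rw [this]; exact hd
      exact ((Int.modEq_iff_dvd).2 (by
        have : -n - (r : ℤ) = -(n + r) := by ring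
        rw [this]; exact (dvd_neg).2 hd))
    have h4 : (r : ℤ) = (-n) % p := by
      rw [← h2, Int.emod_eq_of_lt (by positivity) (by exact_mod_cast hr)]
    omega
  · intro hr
    have h4 : (r : ℤ) = (-n) % p := by rw [hr, Int.toNat_of_nonneg h0]
    refine ⟨by omega, ?_⟩
    have h5 := Int.emod_add_mul_ediv (-n) p
    refine ⟨-((-n) / p), ?_⟩
    rw [h4]
    linarith

theorem dens_X (n : ℤ) (z : ℕ) : dens X n z = 1 := by
  unfold dens
  refine prod_eq_one fun p hp => ?_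
  have hpp := (mem_filter.1 hp).2
  rw [rc_X n p hpp, Nat.cast_one]
  have h2 : (1 : ℝ) < p := by exact_mod_cast hpp.one_lt
  apply div_self
  have : 1 / (p : ℝ) < 1 := by rw [div_lt_one (by linarith)]; exact h2
  linarith

/-- the statement of `AllShortPolynomialSequences.result 1 0 U` -/
def St (U : ℕ) : Prop := ∃ C B : ℕ, ∀ E : ℕ, ∃ N₀ : ℕ, ∀ N : ℕ, N₀ ≤ N → ∀ z : ℕ,
    Real.log N ^ B ≤ z → (z : ℝ) ≤ Real.log N ^ E →
    ∃ Ex : Finset ℕ, (Ex.card : ℝ) ≤ N / Real.log N ^ U ∧ ∀ n ∈ Icc 1 N, n ∉ Ex →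
      ∀ f : ℤ[X], 1 ≤ f.natDegree → f.natDegree ≤ 1 → (∀ i, |((f.coeff i : ℤ) : ℝ)| ≤ Real.log N ^ 0) →
      ∀ x : ℕ, (N : ℝ) ^ (1 / 3 : ℝ) * Real.log N ^ C ≤ (x : ℝ) ^ f.natDegree →
        (x : ℝ) ^ f.natDegree * Real.log N ^ C ≤ N →
        (∀ m ∈ Icc 1 x, 1 ≤ (n : ℤ) + f.eval (m : ℤ)) ∧
        |ps f n x - x * dens f n z| ≤ x / Real.log N ^ U

theorem short_of (h : ∀ U, St U) (U : ℕ) : ∃ T : ℕ, ∀ᶠ N : ℕ in atTop,
  ∃ Ex : Finset ℕ, (Ex.card : ℝ) ≤ N / Real.log N ^ U ∧ ∀ n ∈ Icc 1 N, n ∉ Ex → ∀ x : ℕ,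
    (N : ℝ) ^ (1 / 3 : ℝ) * Real.log N ^ T ≤ x → (x : ℝ) * Real.log N ^ T ≤ N →
      (1 / 4) * x / Real.log N ^ (1 : ℝ) ≤
        (({p : ℕ | p.Prime} ∩ {m : ℕ | n < m ∧ m ≤ n + x}).ncard : ℝ) := by
  obtain ⟨C, B, h1⟩ := h (U + 1)
  obtain ⟨N₀, h2⟩ := h1 (B + 1)
  refine ⟨C, ?_⟩
  have hlog : ∀ᶠ N : ℕ in atTop, 2 ≤ Real.log (N : ℝ) :=
    (Real.tendsto_log_atTop.comp tendsto_natCast_atTop_atTop).eventually_ge_atTop 2
  filter_upwards [eventually_ge_atTop N₀, hlog, eventually_ge_atTop 2] with N hN hL hN2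
  have hL1 : (1 : ℝ) ≤ Real.log N := by linarith
  have hLB : (1 : ℝ) ≤ Real.log N ^ B := one_le_pow₀ hL1
  have hz1 : Real.log N ^ B ≤ (⌈Real.log (N : ℝ) ^ B⌉₊ : ℕ) := Nat.le_ceil _
  have hz2 : ((⌈Real.log (N : ℝ) ^ B⌉₊ : ℕ) : ℝ) ≤ Real.log N ^ (B + 1) := by
    have h3 := (Nat.ceil_lt_add_one (by positivity : (0:ℝ) ≤ Real.log (N : ℝ) ^ B)).le
    rw [pow_succ]
    nlinarith
  obtain ⟨Ex, hE1, hE2⟩ := h2 N hN _ hz1 hz2
  have hNpos : (0 : ℝ) < N := by exact_mod_cast (by omega : 0 < N)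
  refine ⟨Ex, ?_, ?_⟩
  · refine hE1.trans (div_le_div_of_nonneg_left hNpos.le (by positivity) ?_)
    exact pow_le_pow_right₀ hL1 (by omega)
  · intro n hn hnE x hx1 hx2
    have hcoef : ∀ i, |(((X : ℤ[X]).coeff i : ℤ) : ℝ)| ≤ Real.log N ^ 0 := by
      intro i
      rw [coeff_X, pow_zero]
      split_ifs <;> simp
    obtain ⟨-, h4⟩ := hE2 n hn hnE X (by simp) (by simp) hcoef x (by simpa using hx1) (by simpa using hx2)
    rw [dens_X, mul_one] at h4
    rw [Real.rpow_one]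
    -- the lower bound of the sum
    have h5 : (x : ℝ) / Real.log N ^ (U + 1) ≤ x / 2 := by
      refine div_le_div_of_nonneg_left (by positivity) (by norm_num) ?_
      calc (2 : ℝ) ≤ Real.log N := hL
        _ = Real.log N ^ 1 := (pow_one _).symm
        _ ≤ Real.log N ^ (U + 1) := pow_le_pow_right₀ hL1 (by omega)
    have h6 : (x : ℝ) / 2 ≤ ps X n x := by
      have := (abs_le.1 h4).1
      linarith
    -- the upper bound of the sum
    have hxN : (x : ℝ) ≤ N := by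
      have h7 : (1 : ℝ) ≤ Real.log N ^ C := one_le_pow₀ hL1
      nlinarith [Nat.cast_nonneg (α := ℝ) x]
    have hxN' : x ≤ N := by exact_mod_cast hxN
    have hn' := mem_Icc.1 hn
    set F := (Icc 1 x).filter (fun m : ℕ => ((n : ℤ) + (X : ℤ[X]).eval (m : ℤ)).toNat.Prime) with hF
    have h8 : ps X n x ≤ (F.card : ℝ) * (2 * Real.log N) := by
      unfold ps
      rw [← hF, ← nsmul_eq_mul]
      refine sum_le_card_nsmul _ _ _ fun m hm => ?_
      have hm1 := mem_Icc.1 (mem_filter.1 hm).1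
      rw [eval_X]
      have h9 : (((n : ℤ) + (m : ℤ) : ℤ) : ℝ) ≤ (N : ℝ) ^ 2 := by
        have h10 : n + m ≤ N ^ 2 := by nlinarith
        exact_mod_cast h10
      have h11 : (0 : ℝ) < (((n : ℤ) + (m : ℤ) : ℤ) : ℝ) := by
        have : (0 : ℤ) < (n : ℤ) + m := by omega
        exact_mod_cast this
      calc Real.log (((n : ℤ) + (m : ℤ) : ℤ) : ℝ) ≤ Real.log ((N : ℝ) ^ 2) := Real.log_le_log h11 h9
        _ = 2 * Real.log N := by rw [Real.log_pow]; norm_num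
    have h12 : (F.card : ℝ) ≤ (({p : ℕ | p.Prime} ∩ {m : ℕ | n < m ∧ m ≤ n + x}).ncard : ℝ) := by
      have hfin : ({p : ℕ | p.Prime} ∩ {m : ℕ | n < m ∧ m ≤ n + x}).Finite :=
        (Set.finite_Iic (n + x)).subset (fun m hm => hm.2.2)
      have h13 : ((F.image (fun m => n + m) : Finset ℕ) : Set ℕ) ⊆
          {p : ℕ | p.Prime} ∩ {m : ℕ | n < m ∧ m ≤ n + x} := by
        intro q hq
        rw [mem_coe, mem_image] at hq
        obtain ⟨m, hm, rfl⟩ := hq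
        rw [hF, mem_filter, mem_Icc, eval_X] at hm
        refine ⟨?_, by omega, by omega⟩
        have h14 : ((n : ℤ) + (m : ℤ)).toNat = n + m := by omega
        rw [h14] at hm
        exact hm.2
      have h15 := Set.ncard_le_ncard h13 hfin
      rw [Set.ncard_coe_finset, card_image_of_injective _ (add_right_injective n)] at h15
      exact_mod_cast h15
    have h16 : (1 / 4) * (x : ℝ) ≤ (F.card : ℝ) * Real.log N := by linarith
    rw [div_le_iff₀ (by linarith)]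
    refine h16.trans (mul_le_mul_of_nonneg_right h12 (by linarith))

end Pool.Agent.Run7.h871.MW
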