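import Pool.Agent.Results.MP_028722_nt.AllShortPolynomialSequences
import Pool.Agent.Run7.h757.MW.Stm5
import Pool.Agent.Run7.h871.MW.SHORTP0

/-!
# Piece SHORTP of project MW: primes in almost all short intervals
-/

set_option autoImplicit false

open Finset Filter Polynomial

namespace Pool.Agent.Run7.h871.MW

theorem st_all (U : ℕ) : St U := by
  obtain ⟨C, B, h⟩ := Pool.Agent.Results.MP_028722_nt.AllShortPolynomialSequences.result 1 0 U le_rfl
  refine ⟨C, B, fun E => ?_⟩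
  obtain ⟨N₀, h⟩ := h E
  refine ⟨N₀, fun N hN z h1 h2 => ?_⟩
  obtain ⟨Ex, hE, h3⟩ := h N hN z h1 h2
  refine ⟨Ex, hE, fun n hn hne f a b c x d e => ?_⟩
  obtain ⟨g1, g2, -⟩ := h3 n hn hne f a b c x d e
  exact ⟨g1, g2⟩

/-- piece SHORTP -/
theorem t_SHORTP : Pool.Agent.Run7.h757.MW.S_SHORTP := fun U => short_of st_all U

end Pool.Agent.Run7.h871.MW
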